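import Pool.Agent.L7h24.AV.Fin

set_option autoImplicit false

/-!
# The number of `i` such that all `p_i + 2 P_j(i)` are prime, `P_j(i) = g_j(i) + a_j i + b_j`, for arbitrary functions `g_j`
# and almost all `a_j, b_j`

The functions `g_j` (for instance the terms of degree at least two of a polynomial) are arbitrary, and so is the set `I` of
the indices. The bound `N` of the indices is between `C log^k B` and `B / log^D B` (for nondecreasing `g_j` up to the natural
limit, of the order of `B / log B`, given by `p_N ≤ K B`), and the coefficients `a_j, b_j` range over `[1, A] × [1, B]`,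
`A` of the order of `B / N` up to powers of `log B`.

Method: the primes are replaced by the sieve model at the level `z`, a power of `log B` (Fourier analysis: the exponential
sums over the difference are small at all points, `sup_diff` of the library; the mean square over the slopes is large only
near rational points with a small denominator, `typeI_lin`); the model at the level `z` is replaced by the one at the level
`y` by the second moment (`sys_count`), where only the primes `q > y` dividing `i - i'` contribute.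
-/

namespace Pool.Agent.Results.MP_3aaefc_nt.AlmostAllLinearTerms

open Finset

/-- the `n`-th prime, `n ≥ 1` -/
noncomputable def p (n : ℕ) : ℕ := Nat.nth Nat.Prime (n - 1)

/-- the product of `1 - 1/q` over the primes `q ≤ y` -/
noncomputable def V (y : ℕ) : ℝ := ∏ q ∈ (Icc 1 y).filter Nat.Prime, (1 - 1 / (q : ℝ))

/-- `p_i + 2 P_j(i)` for `P_j(i) = g_j(i) + a_j i + b_j`; the pair `v_j` is `(a_j, b_j)` -/
noncomputable def val {k : ℕ} (g : Fin k → ℕ → ℕ) (v : Fin k → ℕ × ℕ) (j : Fin k) (i : ℕ) : ℕ :=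
  p i + 2 * (g j i + (v j).1 * i + (v j).2)

/-- the `i ∈ I` such that `p_i + 2 P_j(i)` is prime for all `j` -/
noncomputable def hits {k : ℕ} (I : Finset ℕ) (g : Fin k → ℕ → ℕ) (v : Fin k → ℕ × ℕ) : Finset ℕ :=
  I.filter (fun i => ∀ j, (val g v j i).Prime)

/-- the `i ∈ I` such that `p_i + 2 P_j(i)` is prime to the product of the primes `≤ y` for all `j` -/
noncomputable def loc {k : ℕ} (y : ℕ) (I : Finset ℕ) (g : Fin k → ℕ → ℕ) (v : Fin k → ℕ × ℕ) : Finset ℕ :=
  I.filter (fun i => ∀ j, (val g v j i).Coprime (primorial y))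

/-- all vectors of the pairs `(a_j, b_j)` with `1 ≤ a_j ≤ A`, `1 ≤ b_j ≤ B` -/
def Box (k A B : ℕ) : Finset (Fin k → ℕ × ℕ) := Fintype.piFinset (fun _ : Fin k => Icc 1 A ×ˢ Icc 1 B)

/-- For `k ≥ 1`, `K` there is `D` such that for every `ε > 0` there are `C`, `y₀` such that for every `y ≥ y₀` and all large
`B` the following holds. Let `A`, `N` be integers with `C log^k B ≤ N`, `B / log^K B ≤ A N ≤ K B`, `p_N ≤ K B`; let
`g_1, ..., g_k` be any functions with values at most `K B` on `[1, N]`; let `A ≥ log^D B`, or let all `g_j` be nondecreasing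
and `A ≥ (log log B)^(k + 1)`; let `I` be any set of integers in `[1, N]`. Then, in the mean square over all vectors of pairs
`(a_j, b_j)`, `1 ≤ a_j ≤ A`, `1 ≤ b_j ≤ B`, the number of the `i ∈ I` with all `p_i + 2 (g_j(i) + a_j i + b_j)` prime differs
from the number of those with all these integers prime to the product of the primes `≤ y`, divided by `(V_y log B)^k`, by at
most `√ε N / log^k B`. -/
theorem result (k K : ℕ) (hk : 1 ≤ k) : ∃ D : ℕ, ∀ ε : ℝ, 0 < ε → ∃ C : ℝ, ∃ y₀ : ℕ, ∀ y : ℕ, y₀ ≤ y → ∃ B₀ : ℕ,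
    ∀ B : ℕ, B₀ ≤ B → ∀ A N : ℕ, C * Real.log B ^ k ≤ N → (B : ℝ) ≤ A * N * Real.log B ^ K → A * N ≤ K * B →
    p N ≤ K * B → ∀ g : Fin k → ℕ → ℕ, (∀ j, ∀ i ∈ Icc 1 N, g j i ≤ K * B) →
    (Real.log B ^ D ≤ A ∨ (Real.log (Real.log B) ^ (k + 1) ≤ A ∧ ∀ j, MonotoneOn (g j) (Set.Icc 1 N))) →
    ∀ I : Finset ℕ, I ⊆ Icc 1 N →
    ∑ v ∈ Box k A B, (((hits I g v).card : ℝ) - (loc y I g v).card / (V y * Real.log B) ^ k) ^ 2 ≤
      ε * ((A * B : ℝ) ^ k * (N / Real.log B ^ k) ^ 2) :=
  Pool.Agent.L7h24.AV.final k K hk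

end Pool.Agent.Results.MP_3aaefc_nt.AlmostAllLinearTerms
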