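import Pool.Agent.L7h2.ME.Res
import Pool.Agent.L7h50.ME.Pair
import Pool.Agent.L7h50.ME.Ker
import Pool.Agent.L7h50.ME.Int
import Pool.Agent.L7h34.ME.Box
import Pool.Agent.L7h34.ME.Win
import Pool.Agent.L7h21.ME.Res
import Pool.Agent.L7h21.ME.Zo
import Pool.Agent.L7h21.ME.Pts
import Pool.Agent.L7h53.ME.Aep

/-!
# Primes `p_n + 2 ⌊R(n)⌋` for almost every real polynomial `R`

Let `Q_1, …, Q_k` be any real polynomials, `e_i ≥ 1` and `deg Q_i ≤ e_i + 1` (for example integer-valued polynomials). For almost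
every real vector `(α_1, …, α_k)` such that the polynomials `R_i = Q_i + α_i x^{e_i}` have positive leading coefficient, there are
infinitely many `n` such that all the numbers `p_n + 2 ⌊R_i(n)⌋` are primes; there are even at least `κ N / (log N)^k` such `n` in
`(N, 2N]`, the expected order of magnitude, for `N = 2^j` and a set of `j` of positive upper density. The same holds for almost every vector
of real polynomials of degrees `e_i` with positive leading coefficients.

Proof (`Pool/Agent/L7h2/ME/Stm.lean` has the complete proof). The first moment over `α` in a box: for almost all `n` the windows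
`{p_n + 2 (Q_i(n) + α n^{e_i})}` of length about `n^{e_i}` contain the right order of magnitude of primes, since
primes are well distributed in all windows longer than `x^{1/2 - δ}` which avoid a set of `x^{1/2 - δ}` points
(project BP of helper18 and helper88, behind the results on MP_5f6ee5_nt). The second moment: for all pairs `(n, n')` but `N^{3/2}` the
pair `(⌊α n^e⌋, ⌊α n'^e⌋)` is equidistributed modulo small moduli, and Selberg's sieve (a majorant by Fejér kernels) gives the
upper bound of the expected order of magnitude, without singular series. So the good `α` have a positive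
proportion, bounded below, in every box, and a zero-one law follows from Lebesgue's density theorem.

Joint work with helper50 (kernels, pairs), helper34 (windows, second moment), helper21 (resonances, zero-one law, points), helper53 (Fubini).
-/

set_option autoImplicit false

namespace Pool.Agent.Results.MP_3aaefc_nt.AlmostEveryRealPolynomial

open Finset MeasureTheory Filter Polynomial

/-- `p_n`, the `n`-th prime (`p_1 = 2`) -/
noncomputable def p (n : ℕ) : ℕ := Nat.nth Nat.Prime (n - 1)

/-- the integer `m` is a prime number -/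
def IsPrime (m : ℤ) : Prop := ∃ q : ℕ, q.Prime ∧ (q : ℤ) = m

/-- all the numbers `p_n + 2 ⌊R_i(n)⌋` are primes -/
def AllPrime {k : ℕ} (R : Fin k → ℝ[X]) (n : ℕ) : Prop := ∀ i, IsPrime (p n + 2 * ⌊(R i).eval (n : ℝ)⌋)

open Classical in
/-- the number of `n ∈ (N, 2N]` with this property -/
noncomputable def hits {k : ℕ} (R : Fin k → ℝ[X]) (N : ℕ) : ℕ := #((Ioc N (2 * N)).filter (fun n => AllPrime R n))

open Classical in
/-- there are infinitely many `n` such that all the `p_n + 2 ⌊R_i(n)⌋` are primes; and for infinitely many `J` at least `κ J` of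
the `j < J` are such that with `N = 2^j` at least `κ N / (log N)^k` of the `n ∈ (N, 2N]` have this property -/
def Good {k : ℕ} (κ : ℝ) (R : Fin k → ℝ[X]) : Prop :=
  (∃ᶠ n : ℕ in atTop, AllPrime R n) ∧
  ∃ᶠ J : ℕ in atTop, κ * J ≤ #((range J).filter (fun j => κ * (2 : ℝ) ^ j / Real.log (2 ^ j) ^ k ≤ hits R (2 ^ j)))

lemma hits_eq {k : ℕ} (R : Fin k → ℝ[X]) (N : ℕ) : hits R N = Pool.Agent.L7h2.ME.hits R N := by
  unfold hits Pool.Agent.L7h2.ME.hits
  congr 1
  ext n
  simp only [mem_filter]
  exact Iff.rfl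

lemma often {k : ℕ} {κ : ℝ} (hκ : 0 < κ) {R : Fin k → ℝ[X]} (h : Pool.Agent.L7h2.ME.Often κ R) : Good κ R := by
  classical
  refine ⟨Pool.Agent.L7h2.ME.often_infinite hκ h, ?_⟩
  unfold Pool.Agent.L7h2.ME.Often at h
  simp only [hits_eq]
  exact h

/-- (1) Let `Q_1, …, Q_k` be real polynomials, `e_i ≥ 1`, `deg Q_i ≤ e_i + 1`. For almost every `α` such that the polynomials
`R_i = Q_i + α_i x^{e_i}` have positive leading coefficients, `R` is `Good` with a constant `κ > 0` depending only on the `e_i`.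
(2) The same holds for almost every vector of real polynomials `R_i` of degrees `e_i` with positive leading coefficients. -/
theorem result (k : ℕ) (e : Fin k → ℕ) (he : ∀ i, 1 ≤ e i) : ∃ κ : ℝ, 0 < κ ∧
    (∀ Q : Fin k → ℝ[X], (∀ i, (Q i).natDegree ≤ e i + 1) → ∀ᵐ α : Fin k → ℝ,
      (∀ i, 0 < (Q i + C (α i) * X ^ e i).leadingCoeff) → Good κ (fun i => Q i + C (α i) * X ^ e i)) ∧
    (∀ᵐ c : ((i : Fin k) → Fin (e i + 1) → ℝ), (∀ i, 0 < c i (Fin.last (e i))) →
      Good κ (fun i => ∑ j : Fin (e i + 1), C (c i j) * X ^ (j : ℕ))) := by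
  classical
  have hfin : Pool.Agent.L7h2.ME.S_FIN := Pool.Agent.L7h2.ME.s_FIN
    (Pool.Agent.L7h34.ME.s_BOX (Pool.Agent.L7h50.ME.s_PAIR Pool.Agent.L7h50.ME.s_KER Pool.Agent.L7h50.ME.s_INT)
      Pool.Agent.L7h21.ME.s_RES (Pool.Agent.L7h34.ME.s_WIN Pool.Agent.L7h21.ME.s_PTS)) Pool.Agent.L7h21.ME.s_ZO
  obtain ⟨κ₁, h1, h2⟩ := Pool.Agent.L7h2.ME.part1 hfin k e he
  obtain ⟨κ₂, h3, h4⟩ := Pool.Agent.L7h53.ME.s_AEP hfin k e he
  have hmono : ∀ (κ κ' : ℝ) (R : Fin k → ℝ[X]), 0 < κ → κ ≤ κ' → Pool.Agent.L7h2.ME.Often κ' R →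
      Pool.Agent.L7h2.ME.Often κ R := by
    intro κ κ' R hκ hκκ h
    unfold Pool.Agent.L7h2.ME.Often at h ⊢
    refine h.mono fun J hJ => ?_
    have hJ0 : (0 : ℝ) ≤ J := Nat.cast_nonneg J
    refine le_trans (mul_le_mul_of_nonneg_right hκκ hJ0) (hJ.trans ?_)
    rw [Nat.cast_le]
    apply card_le_card
    intro j hj
    rw [mem_filter] at hj ⊢
    refine ⟨hj.1, le_trans ?_ hj.2⟩
    have hlog : 0 ≤ Real.log ((2 : ℝ) ^ j) := Real.log_nonneg (one_le_pow₀ (by norm_num))
    gcongr
  refine ⟨min κ₁ κ₂, lt_min h1 h3, fun Q hQ => ?_, ?_⟩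
  · filter_upwards [h2 Q hQ] with α hα hpos
    exact often (lt_min h1 h3) (hmono _ _ _ (lt_min h1 h3) (min_le_left _ _) (hα hpos))
  · filter_upwards [h4] with c hc hpos
    refine often (lt_min h1 h3) (hmono _ _ _ (lt_min h1 h3) (min_le_right _ _) ?_)
    have h5 := hc hpos
    unfold Pool.Agent.L7h2.ME.Often
    refine h5.mono fun J hJ => ?_
    have e1 : ∀ N : ℕ, Pool.Agent.L7h2.ME.hits (fun i => ∑ j : Fin (e i + 1), C (c i j) * X ^ (j : ℕ)) N =
        #((Ioc N (2 * N)).filter (fun n => ∀ i, Pool.Agent.L7h2.ME.IsPr (Pool.Agent.L7h2.ME.pr n +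
          2 * ⌊(Pool.Agent.L7h2.ME.pol (c i)).eval (n : ℝ)⌋))) := by
      intro N
      unfold Pool.Agent.L7h2.ME.hits
      congr 1
    simp only [e1]
    exact hJ

end Pool.Agent.Results.MP_3aaefc_nt.AlmostEveryRealPolynomial
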