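import Pool.Agent.L7h2.LP.Pair
import Pool.Agent.L7h6.GB.FlexWalk

set_option autoImplicit false

/-!
# The number of all `i ≤ x` with `p_i + 2 (a i + N)` prime, for EVERY slope `a` and almost all multiples `N` of the integers
# accepted by an infinite automaton with a potential

The sets of integers (their digits lead from the state `x₀` to the state `y₀` of a finite or infinite automaton) are in
general sparse (they have `b ^ (k (1 - δ))` elements below `b ^ k`), and they cannot be described by a finite automaton or by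
independent digits. Special cases, proved in this file before the main theorem: words which label the walks in a symmetric
graph, for instance the words in the generators of a group which are trivial in the group (`symmetricGraphs`), and correctly
nested words, for instance the Dyck words (`nestedWords`).

Method: the asymptotic formula for the primes in `N + S`, `S` an arbitrary dense set, `N` a multiple of a random integer with
exchangeable blocks of digits, is `Pool.Agent.N625.PT.law2` (starting files); the automata with a potential have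
exchangeable blocks (`Pool.Agent.L7h6.GB.flex_auto`, of our team).
-/

namespace Pool.Agent.Results.MP_3aaefc_nt.PotentialAutomata

open Finset

/-- the `n`-th prime, `n ≥ 1` -/
noncomputable def p (n : ℕ) : ℕ := Nat.nth Nat.Prime (n - 1)

/-- the product of `1 - 1/q` over the primes `q ≤ y` -/
noncomputable def V (y : ℕ) : ℝ := ∏ q ∈ (Icc 1 y).filter Nat.Prime, (1 - 1 / (q : ℝ))

/-- the multiple of the product of the primes `≤ y` given by the integers `h` and `c + κ v` -/
def Nv (y h : ℕ) (c κ : ℤ) (v : ℕ) : ℤ := ((primorial y * h : ℕ) : ℤ) * (c + κ * v)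

/-- the `1 ≤ i ≤ x` such that `p_i + 2 P(i)` is prime, for the linear polynomial `P(i) = a i + n` -/
noncomputable def Good (a x : ℕ) (n : ℤ) : Finset ℕ := (Icc 1 x).filter (fun i : ℕ => ((p i : ℤ) + 2 * (a * i + n)).toNat.Prime)

/-- the `1 ≤ i ≤ x` such that `p_i + 2 a i` is prime to `D` -/
noncomputable def Adm (a D x : ℕ) : Finset ℕ := (Icc 1 x).filter (fun i : ℕ => (p i + 2 * a * i).Coprime D)

/-- The formula for the polynomial `P(i) = a i + N`, `N = h M (c + κ v)`, `M` the product of the primes `≤ y`: if `N > 0`, the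
number of all `i ≤ x` with `p_i + 2 P(i)` prime differs from `E` by at most `ε E`, where `E` is the number of the `i ≤ x`
with `p_i + 2 a i` prime to `M h`, divided by `V y log Z`. -/
def Formula (ε Z : ℝ) (y x : ℕ) (c κ : ℤ) (v a h : ℕ) : Prop :=
  0 < Nv y h c κ v → |((Good a x (Nv y h c κ v)).card : ℝ) - (Adm a (primorial y * h) x).card / (V y * Real.log Z)| ≤
    ε * ((Adm a (primorial y * h) x).card / (V y * Real.log Z))

open Classical in
/-- The law for a set `W` of integers below `b ^ k`: let `y` be an integer between `θ log k` and `K₁ log k`, `|c| ≤ B b ^ k`,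
`b ^ k ≤ x k ^ C`, `x ≤ b ^ k k ^ C`. Then for EVERY slope `a ≤ k ^ J` and every `1 ≤ h ≤ k ^ J` the formula holds for all the
`v` in `W` with the exception of a proportion of at most `ε`. -/
def Law (b B J C K₁ : ℕ) (κ : ℤ) (θ ε : ℝ) (k : ℕ) (W : Finset ℕ) : Prop :=
  ∀ y : ℕ, θ * Real.log k ≤ y → y ≤ K₁ * Real.log k → ∀ c : ℤ, |c| ≤ B * (b : ℤ) ^ k →
    ∀ x : ℕ, b ^ k ≤ x * k ^ C → x ≤ b ^ k * k ^ C → ∀ a h : ℕ, a ≤ k ^ J → 1 ≤ h → h ≤ k ^ J →
      ((W.filter fun v => ¬ Formula ε ((b : ℝ) ^ k) y x c κ v a h).card : ℝ) ≤ ε * W.card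

/-- the `k` digits of `v` in base `b`, from the most significant to the least significant one (the digit number `i`,
`0 ≤ i < k`, from the left is `v / b ^ (k - 1 - i) % b`) -/
def word (b k v : ℕ) : List ℕ := (List.range k).map fun i => v / b ^ (k - 1 - i) % b

/-- The state which is reached from the state `x` by the word `w` (none: the automaton stops). The automaton has the set of
states `X`, which may be infinite; the digit `a` leads from `z` to the state `z'` with `δ z a = some z'`, if there is one. -/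
def run {X : Type} (δ : X → ℕ → Option X) (x : X) (w : List ℕ) : Option X :=
  w.foldl (fun s a => s.bind fun z => δ z a) (some x)

open Classical in
/-- The integers `v < b ^ k` whose `k` digits in base `b` lead from the state `x` to the state `y`. -/
noncomputable def walks {X : Type} (b : ℕ) (δ : X → ℕ → Option X) (k : ℕ) (x y : X) : Finset ℕ :=
  (range (b ^ k)).filter fun v => run δ x (word b k v) = some y

/-- A potential `g` of the automaton for the final state `y`: nonnegative numbers `g n z`, with `g 0 y ≥ 1`, such that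
`g (n + 1) z` is at least the sum of `g n z'` over the digits which lead from `z` to a state `z'` (so `g n z` is at least the
number of the words of the length `n` which lead from `z` to `y`); and from every state `z` two different words of `L` digits
lead to the same state `z'` with `g n z' ≥ η g (n + L) z` for all `n`. -/
structure Potential (b L : ℕ) (η : ℝ) {X : Type} (δ : X → ℕ → Option X) (y : X) (g : ℕ → X → ℝ) : Prop where
  nonneg : ∀ n z, 0 ≤ g n z
  final : 1 ≤ g 0 y
  step : ∀ n z, ∑ a ∈ range b, (δ z a).elim 0 (g n) ≤ g (n + 1) z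
  exchange : ∀ z, ∃ (a a' : ℕ) (z' : X), a < a' ∧ a' < b ^ L ∧ run δ z (word b L a) = some z' ∧
    run δ z (word b L a') = some z' ∧ ∀ n, η * g (n + L) z ≤ g n z'

/-- The digits `a < b` act on the set `X` of the vertices: an edge with the label `a` leads from `x` to `y` if
`δ x a = some y` (at most one edge with the label `a` starts at `x`). The number of the edges from `x` to `y` equals the
number of the edges from `y` to `x`, and at least two edges start at every vertex. The graph may be infinite. -/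
structure Graph {X : Type} (b : ℕ) (δ : X → ℕ → Option X) : Prop where
  symm : ∀ x y : X, {a : ℕ | a < b ∧ δ x a = some y}.ncard = {a : ℕ | a < b ∧ δ y a = some x}.ncard
  two : ∀ x : X, ∃ a a' : ℕ, a < a' ∧ a' < b ∧ (δ x a).isSome ∧ (δ x a').isSome

/-- `P` is a set of pairs of an opening digit and a closing digit which match each other, `E` is a set of neutral
digits; the digits are smaller than `b`, no digit plays two of the three roles, and there is at least one pair.
(An opening digit can match several closing digits, and conversely.) -/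
structure Alphabet (b : ℕ) (P : Finset (ℕ × ℕ)) (E : Finset ℕ) : Prop where
  lt : ∀ p ∈ P, p.1 < b ∧ p.2 < b
  ne : ∀ p ∈ P, ∀ p' ∈ P, p.1 ≠ p'.2
  neutral : ∀ a ∈ E, a < b ∧ ∀ p ∈ P, a ≠ p.1 ∧ a ≠ p.2
  nonempty : P.Nonempty

/-- The correctly nested words: the empty word; a neutral digit followed by a correctly nested word; and `o u c w`,
where `u` and `w` are correctly nested words and the opening digit `o` matches the closing digit `c`. -/
inductive Balanced (P : Finset (ℕ × ℕ)) (E : Finset ℕ) : List ℕ → Prop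
  | nil : Balanced P E []
  | neutral (a : ℕ) (w : List ℕ) : a ∈ E → Balanced P E w → Balanced P E (a :: w)
  | pair (o c : ℕ) (u w : List ℕ) : (o, c) ∈ P → Balanced P E u → Balanced P E w → Balanced P E (o :: (u ++ c :: w))

open Classical in
/-- The integers `v < b ^ k` whose `k` digits in base `b` form a correctly nested word. -/
noncomputable def brackets (b : ℕ) (P : Finset (ℕ × ℕ)) (E : Finset ℕ) (k : ℕ) : Finset ℕ :=
  (range (b ^ k)).filter fun v => Balanced P E (word b k v)

lemma bal_iff (P : Finset (ℕ × ℕ)) (E : Finset ℕ) (w : List ℕ) : Balanced P E w ↔ Pool.Agent.N625.DY.Balanced P E w := by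
  constructor
  · intro h
    induction h with
    | nil => exact .nil
    | neutral a w h1 _ ih => exact .neutral a w h1 ih
    | pair o c u w h1 _ _ ih1 ih2 => exact .pair o c u w h1 ih1 ih2
  · intro h
    induction h with
    | nil => exact .nil
    | neutral a w h1 _ ih => exact .neutral a w h1 ih
    | pair o c u w h1 _ _ ih1 ih2 => exact .pair o c u w h1 ih1 ih2

lemma brackets_eq (b : ℕ) (P : Finset (ℕ × ℕ)) (E : Finset ℕ) (k : ℕ) :
    brackets b P E k = Pool.Agent.N625.DY.brackets b P E k := by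
  classical
  unfold brackets Pool.Agent.N625.DY.brackets Pool.Agent.N625.DY.word
  ext v
  rw [mem_filter, mem_filter, bal_iff]
  exact Iff.rfl

/-- Special case. Let `δ` be a graph whose edges are labelled with the digits in base `b`, let `x₀` be a vertex, and let
`ρ > 0` be such that there are at most `ρ ^ (2 n)` closed walks of the length `2 n` at `x₀`, for all `n`. For large `k` and all
the vertices `y₀` for which the number of the walks of the length `k` from `x₀` to `y₀` is at least `ρ ^ k / k ^ D`, the law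
holds for the integers whose `k` digits are the labels of a walk from `x₀` to `y₀`. -/
theorem symmetricGraphs (b : ℕ) (X : Type) (δ : X → ℕ → Option X) (hG : Graph b δ) (x₀ : X) (ρ : ℝ) (hρ : 0 < ρ)
    (hR : ∀ n : ℕ, ((walks b δ (2 * n) x₀ x₀).card : ℝ) ≤ ρ ^ (2 * n)) (D : ℕ) (κ : ℤ) (hκ : κ ≠ 0)
    (B J C K₁ : ℕ) (θ : ℝ) (hθ : 0 < θ) (ε : ℝ) (hε : 0 < ε) (hε1 : ε ≤ 1) : ∃ k₀ : ℕ, ∀ k : ℕ, k₀ ≤ k → ∀ y₀ : X,
      ρ ^ k / (k : ℝ) ^ D ≤ (walks b δ k x₀ y₀).card → Law b B J C K₁ κ θ ε k (walks b δ k x₀ y₀) := by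
  classical
  have hG' : Pool.Agent.N625.GW.Graph b δ := ⟨hG.symm, hG.two⟩
  have hb := Pool.Agent.N625.GW.two_le hG' x₀
  have hρ2 := Pool.Agent.N625.GW.rho_two hG' hR
  obtain ⟨k₀, h0⟩ := Pool.Agent.L7h2.LP.pair b 2 hb (by norm_num) (1 / (2 * ρ ^ 2))
    (by positivity) (by rw [div_le_one (by positivity)]; linarith) (D + 1) κ hκ B J C K₁ θ hθ ε hε hε1
  refine ⟨k₀ + 2, fun k hk y₀ hy₀ y hy1 hy2 c hc x hx1 hx2 a h ha hh1 hh => ?_⟩
  have hk1 : (0 : ℝ) < (k : ℝ) ^ D := by
    have : (0 : ℝ) < k := by exact_mod_cast (by omega : 0 < k)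
    positivity
  have hy' : ρ ^ k ≤ (k : ℝ) ^ D * (walks b δ k x₀ y₀).card := by
    rw [div_le_iff₀ hk1, mul_comm] at hy₀
    exact hy₀
  have h2 := h0 k (by omega) _ (Pool.Agent.L7h6.GB.walk_flex hG' x₀ ρ hρ hR D k (by omega) y₀ hy') y hy1 hy2
    c hc x hx1 hx2 a h ha hh1 hh
  have h3 := Pool.Agent.L7h6.GB.pr_count k x₀ y₀ (Pool.Agent.N625.GW.card_pos' hρ hy')
    (fun v => Formula ε ((b : ℝ) ^ k) y x c κ v a h) ε (by
      refine le_trans (le_of_eq (sum_congr rfl fun v _ => ?_)) h2
      exact if_congr (by unfold Formula; rw [Real.log_pow]; exact Iff.rfl) rfl rfl)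
  exact h3.trans (le_of_eq (mul_comm _ _))

/-- Special case. Let the matching pairs `P` of digits and the neutral digits `E` in base `b` be fixed. For large `k`, the law
holds for the integers whose `k` digits form a correctly nested word. -/
theorem nestedWords (b : ℕ) (P : Finset (ℕ × ℕ)) (E : Finset ℕ) (hA : Alphabet b P E) (κ : ℤ) (hκ : κ ≠ 0)
    (B J C K₁ : ℕ) (θ : ℝ) (hθ : 0 < θ) (ε : ℝ) (hε : 0 < ε) (hε1 : ε ≤ 1) : ∃ k₀ : ℕ, ∀ k : ℕ, k₀ ≤ k →
      Law b B J C K₁ κ θ ε k (brackets b P E k) := by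
  classical
  have hA' : Pool.Agent.N625.DY.Alphabet b P E := ⟨hA.lt, hA.ne, hA.neutral, hA.nonempty⟩
  have hb := Pool.Agent.N625.DY.two_le hA'
  have hbe := Pool.Agent.N625.DY.beta_ge hA'
  obtain ⟨T, k₁, hflex⟩ := Pool.Agent.L7h6.GB.nested_flex hA'
  obtain ⟨k₀, h0⟩ := Pool.Agent.L7h2.LP.pair b 4 hb (by norm_num)
    (1 / Pool.Agent.N625.DY.beta P E ^ 4) (by positivity)
    (by rw [div_le_one (by positivity)]; exact one_le_pow₀ (by linarith)) T κ hκ B J C K₁ θ hθ ε hε hε1
  refine ⟨k₀ + k₁, fun k hk y hy1 hy2 c hc x hx1 hx2 a h ha hh1 hh => ?_⟩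
  simp only [brackets_eq]
  by_cases hke : Even k ∨ E.Nonempty
  · have h2 := h0 k (by omega) _ (hflex k (by omega) hke) y hy1 hy2 c hc x hx1 hx2 a h ha hh1 hh
    rw [Pool.Agent.L7h6.GB.brackets_eq hA']
    have hpos : 0 < (Pool.Agent.N625.GW.walks b (Pool.Agent.N625.DY.step P E) k [] []).card := by
      rw [← Pool.Agent.L7h6.GB.brackets_eq hA']
      exact Pool.Agent.N625.DY.card_pos_of hA' k hke
    have h3 := Pool.Agent.L7h6.GB.pr_count k _ _ hpos
      (fun v => Formula ε ((b : ℝ) ^ k) y x c κ v a h) ε (by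
        refine le_trans (le_of_eq (sum_congr rfl fun v _ => ?_)) h2
        exact if_congr (by unfold Formula; rw [Real.log_pow]; exact Iff.rfl) rfl rfl)
    exact h3.trans (le_of_eq (mul_comm _ _))
  · rw [Pool.Agent.N625.DY.br_empty k hke]
    simp

/-- The main term. -/
theorem mainTerm (b : ℕ) (hb : 2 ≤ b) (J C K₁ : ℕ) (ε : ℝ) (hε : 0 < ε) : ∃ k₀ : ℕ, ∀ k : ℕ, k₀ ≤ k →
    ∀ y : ℕ, y ≤ K₁ * Real.log k → ∀ x : ℕ, b ^ k ≤ x * k ^ C → ∀ h : ℕ, 1 ≤ h → h ≤ k ^ J → ∀ a : ℕ,
        x / (primorial y * h) ≤ (Adm a (primorial y * h) x).card ∧ (Adm a (primorial y * h) x).card ≤ x ∧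
        (primorial y * h ∣ a → (1 - ε) * x ≤ (Adm a (primorial y * h) x).card) := by
  obtain ⟨m, hm⟩ := exists_nat_ge (1 / ε)
  obtain ⟨k₃, h3⟩ := Pool.Agent.N625.PT.pow_le_pow_digits b hb (2 * K₁ + J + C + 1)
  refine ⟨max k₃ (max m 5), fun k hk y hy x hx h hh1 hh a => ⟨Pool.Agent.L7h2.LP.adm_card a _ x, ?_, ?_⟩⟩
  · unfold Adm
    refine (card_filter_le _ _).trans ?_
    rw [Nat.card_Icc]
    omega
  · intro hdiv
    have b4 : 5 ≤ k := by omega
    have hkr : (5 : ℝ) ≤ k := by exact_mod_cast b4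
    have hk3 := h3 k (by omega)
    have hbig : k ^ (2 * K₁ + J + 1) ≤ x := by
      have : k ^ (2 * K₁ + J + 1) * k ^ C ≤ x * k ^ C := by
        rw [← pow_add]
        have e : 2 * K₁ + J + 1 + C = 2 * K₁ + J + C + 1 := by ring
        rw [e]
        exact hk3.trans hx
      exact Nat.le_of_mul_le_mul_right this (by positivity)
    have hDk : primorial y * h ≤ k ^ (2 * K₁ + J) :=
      Pool.Agent.N625.PT.mult_small K₁ J k y h (by omega) hy hh
    have h5 : primorial y * h * k ≤ x := by
      refine le_trans ?_ hbig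
      rw [pow_succ]
      exact Nat.mul_le_mul_right _ hDk
    have h6 := Pool.Agent.L7h2.LP.log_nth_lt (primorial y * h) (Nat.mul_pos (primorial_pos y) hh1) x a hdiv
    have h7 : (x : ℝ) ≤ (Adm a (primorial y * h) x).card + ((primorial y * h : ℕ) : ℝ) := by exact_mod_cast h6
    have h8 : ((primorial y * h : ℕ) : ℝ) * k ≤ x := by exact_mod_cast h5
    have h9 : 1 ≤ ε * k := by
      have e1 : (m : ℝ) ≤ k := by exact_mod_cast (by omega : m ≤ k)
      have e2 : 1 / ε ≤ k := hm.trans e1
      rwa [div_le_iff₀ hε, mul_comm] at e2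
    have h10 : ((primorial y * h : ℕ) : ℝ) ≤ ε * x := by
      have e0 : (0 : ℝ) ≤ ((primorial y * h : ℕ) : ℝ) := Nat.cast_nonneg _
      calc ((primorial y * h : ℕ) : ℝ) ≤ ((primorial y * h : ℕ) : ℝ) * (ε * k) := le_mul_of_one_le_right e0 h9
        _ = ε * (((primorial y * h : ℕ) : ℝ) * k) := by ring
        _ ≤ ε * x := mul_le_mul_of_nonneg_left h8 hε.le
    linarith

/-- Let `k` be large in terms of `b, L, η, T, κ, B, J, C, K₁, θ, ε`. Then for EVERY finite or infinite automaton `δ`, all
states `x₀`, `y₀` and every potential `g` for `y₀` with `g k x₀ ≤ k ^ T #W`, where `W` is the set of the integers below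
`b ^ k` whose `k` digits lead from `x₀` to `y₀`, the law holds for `W`: for all `y` between `θ log k` and `K₁ log k`,
`|c| ≤ B b ^ k`, `x` with `b ^ k ≤ x k ^ C` and `x ≤ b ^ k k ^ C`, for EVERY slope `a ≤ k ^ J` and every `1 ≤ h ≤ k ^ J`, all
the `v` in `W` with the exception of a proportion of at most `ε` have the property: if `N = h M (c + κ v) > 0`, the number of
ALL `i ≤ x` such that `p_i + 2 (a i + N)` is prime differs from `E = #Adm / (V y log b ^ k)` by at most `ε E`; here `M` is the
product of the primes `≤ y` and `Adm` is the set of the `i ≤ x` with `p_i + 2 a i` prime to `M h`. Moreover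
`⌊x / (M h)⌋ ≤ #Adm ≤ x`, and if `M h` divides the slope `a`, then `(1 - ε) x ≤ #Adm`, so the main term is
`x / (V y log b ^ k)` up to the factor `1 - ε`. -/
theorem result (b L : ℕ) (hb : 2 ≤ b) (hL : 1 ≤ L) (η : ℝ) (hη : 0 < η) (hη1 : η ≤ 1) (T : ℕ) (κ : ℤ) (hκ : κ ≠ 0)
    (B J C K₁ : ℕ) (θ : ℝ) (hθ : 0 < θ) (ε : ℝ) (hε : 0 < ε) (hε1 : ε ≤ 1) :
    ∃ k₀ : ℕ, ∀ k : ℕ, k₀ ≤ k →
      (∀ (X : Type) (δ : X → ℕ → Option X) (x₀ y₀ : X) (g : ℕ → X → ℝ), Potential b L η δ y₀ g →
        g k x₀ ≤ (k : ℝ) ^ T * (walks b δ k x₀ y₀).card → Law b B J C K₁ κ θ ε k (walks b δ k x₀ y₀)) ∧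
      (∀ y : ℕ, y ≤ K₁ * Real.log k → ∀ x : ℕ, b ^ k ≤ x * k ^ C → ∀ h : ℕ, 1 ≤ h → h ≤ k ^ J → ∀ a : ℕ,
        x / (primorial y * h) ≤ (Adm a (primorial y * h) x).card ∧ (Adm a (primorial y * h) x).card ≤ x ∧
        (primorial y * h ∣ a → (1 - ε) * x ≤ (Adm a (primorial y * h) x).card)) := by
  classical
  obtain ⟨k₀, h0⟩ := Pool.Agent.L7h2.LP.pair b L hb hL η hη hη1 T κ hκ B J C K₁ θ hθ ε hε hε1
  obtain ⟨k₁, h1⟩ := mainTerm b hb J C K₁ ε hε
  refine ⟨max k₀ k₁, fun k hk => ⟨?_, h1 k (by omega)⟩⟩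
  intro X δ x₀ y₀ g hg hgk y hy1 hy2 c hc x hx1 hx2 a h ha hh1 hh
  rcases Nat.eq_zero_or_pos (walks b δ k x₀ y₀).card with hz | hpos
  · rw [card_eq_zero] at hz
    rw [hz]
    simp
  · have hstep : ∀ n z, ∑ a ∈ range b, Pool.Agent.N625.GW.onO (g n) (δ z a) ≤ g (n + 1) z := by
      intro n z
      refine le_trans (le_of_eq (sum_congr rfl fun a _ => ?_)) (hg.step n z)
      cases δ z a <;> rfl
    have hfl := Pool.Agent.L7h6.GB.flex_auto b L hb hL δ η hη hη1 T k x₀ y₀ g hg.nonneg hstep hg.final hpos hgk hg.exchange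
    have h2 := h0 k (by omega) _ hfl y hy1 hy2 c hc x hx1 hx2 a h ha hh1 hh
    have h3 := Pool.Agent.L7h6.GB.pr_count k x₀ y₀ hpos
      (fun v => Formula ε ((b : ℝ) ^ k) y x c κ v a h) ε (by
        refine le_trans (le_of_eq (sum_congr rfl fun v _ => ?_)) h2
        exact if_congr (by unfold Formula; rw [Real.log_pow]; exact Iff.rfl) rfl rfl)
    exact h3.trans (le_of_eq (mul_comm _ _))

end Pool.Agent.Results.MP_3aaefc_nt.PotentialAutomata
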