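import Pool.Agent.L7h2.ME.Ss
import Pool.Agent.L7h53.ME.Low
import Pool.Agent.L7h21.ME.Pts

/-!
# Short shifts: primes `p_n + 2 (P_i(n) + b_i)` with shifts smaller than the differences of consecutive values of `P_i`

There is an absolute `δ > 0` such that for integer-valued polynomials `P_1, …, P_k` of degrees `d_i` with positive leading
coefficients, for all large `N` and all boxes `∏ (h_i, h_i + H_i]` of shifts with `N^{d_i - 1 - δ} ≤ H_i` (`N^{1/2 - δ} ≤ H_i` if
`d_i ≤ 1`) and `h_i + H_i ≤ N^{max(d_i, 1)}`: a positive proportion of the `b` in the box is such that for at least `c N / (log N)^k` of the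
`n ∈ (N, 2N]` all the numbers `p_n + 2 (P_i(n) + b_i)` are primes.

For `d_i ≥ 2` the shifts are smaller than the differences `≍ N^{d_i - 1}` of consecutive values of `P_i` on `(N, 2N]`, for
`d_i ≤ 1` they are shorter than `N^{1/2}`.

Proof. First moment: the windows `(p_n + 2 P_i(n) + 2 h_i, p_n + 2 P_i(n) + 2 h_i + 2 H_i]` contain the right order of magnitude of
primes for almost all `n`, since primes are well distributed in all the windows longer than `x^{1/2 - δ}` which avoid a set of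
`x^{1/2 - δ}` points (project BP of helper18 and helper88; helper21, helper34), and few windows meet it often (helper53). The
second moment: Selberg's sieve, and the bound for the number of the collisions `p_n + 2 P_i(n) ≡ p_m + 2 P_i(m)` modulo small primes of
the starting files (`Pool/Agent/H342R2/SP`).
-/

set_option autoImplicit false

namespace Pool.Agent.Results.MP_3aaefc_nt.ShortShifts

open Finset Polynomial

/-- `p_n`, the `n`-th prime (`p_1 = 2`) -/
noncomputable def p (n : ℕ) : ℕ := Nat.nth Nat.Prime (n - 1)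

/-- all the numbers `p_n + 2 (P_i(n) + b_i)` are primes -/
def AllPrime {k : ℕ} (P : Fin k → ℚ[X]) (b : Fin k → ℕ) (n : ℕ) : Prop :=
  ∀ i, ∃ q : ℕ, q.Prime ∧ (q : ℚ) = (p n : ℚ) + 2 * ((P i).eval (n : ℚ) + (b i : ℚ))

open Classical in
/-- the number of `n ∈ (N, 2N]` with this property -/
noncomputable def hits {k : ℕ} (P : Fin k → ℚ[X]) (b : Fin k → ℕ) (N : ℕ) : ℕ :=
  #((Ioc N (2 * N)).filter (fun n => AllPrime P b n))

open Classical in
/-- the shifts `b` with `h_i < b_i ≤ h_i + H_i` for which there are at least `c N / (log N)^k` such `n ∈ (N, 2N]` -/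
noncomputable def good {k : ℕ} (P : Fin k → ℚ[X]) (c : ℝ) (N : ℕ) (h H : Fin k → ℕ) : Finset (Fin k → ℕ) :=
  (Fintype.piFinset (fun i => Ioc (h i) (h i + H i))).filter (fun b => c * N / Real.log N ^ k ≤ hits P b N)

/-- the least length of the range of a shift: `N^{1/2 - δ}` for degree `d ≤ 1`, `N^{d - 1 - δ}` for degree `d ≥ 2` -/
noncomputable def short (δ : ℝ) (d N : ℕ) : ℝ := if d ≤ 1 then (N : ℝ) ^ (1 / 2 - δ) else (N : ℝ) ^ ((d : ℝ) - 1 - δ)

lemma short_eq (δ : ℝ) (d N : ℕ) : short δ d N = (N : ℝ) ^ Pool.Agent.L7h2.ME.ex δ d := by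
  unfold short Pool.Agent.L7h2.ME.ex
  split_ifs <;> rfl

open Classical in
lemma le_hits {k : ℕ} {Q : Fin k → ℚ[X]} (hQ : ∀ i, Pool.Agent.H342R2.SP.IntVal (Q i)) {n₀ : ℕ}
    (hn : ∀ i, ∀ n : ℕ, n₀ ≤ n → 0 ≤ (Q i).eval (n : ℚ)) {N : ℕ} (hN : n₀ ≤ N) (b : Fin k → ℕ) :
    #((Ico N (2 * N)).filter (fun n => ∀ i, (Pool.Agent.H646.P n + 2 * Pool.Agent.H342R2.SP.FF (Q i) n + 2 * b i).Prime))
      ≤ hits Q b N := by
  have hinj : Function.Injective (fun n : ℕ => n + 1) := fun a b h => Nat.add_right_cancel h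
  unfold hits
  rw [← card_image_of_injective _ hinj]
  apply card_le_card
  intro m hm
  rw [mem_image] at hm
  obtain ⟨n, hn1, rfl⟩ := hm
  rw [mem_filter, mem_Ico] at hn1
  rw [mem_filter, mem_Ioc]
  refine ⟨⟨by omega, by omega⟩, fun i => ⟨Pool.Agent.H646.P n + 2 * Pool.Agent.H342R2.SP.FF (Q i) n + 2 * b i, hn1.2 i, ?_⟩⟩
  have h1 := Pool.Agent.H342R2.SP.FF_cast (hQ i) (hn i) (show n₀ ≤ n by omega)
  have h2 : p (n + 1) = Pool.Agent.H646.P n := rfl
  rw [h2]
  push_cast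
  rw [h1]
  ring

/-- There is `δ > 0` such that for all `k` and `d_1, …, d_k` there is `c > 0` such that for all integer-valued polynomials `P_i` of
degree `d_i` with positive leading coefficients, all large `N` and all boxes of shifts `h_i < b_i ≤ h_i + H_i` with
`short δ d_i N ≤ H_i` and `h_i + H_i ≤ N^{max(d_i, 1)}`: at least `c ∏ H_i` of the shifts are such that for at least `c N / (log N)^k` of the
`n ∈ (N, 2N]` all the numbers `p_n + 2 (P_i(n) + b_i)` are primes. -/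
theorem result : ∃ δ : ℝ, 0 < δ ∧ ∀ (k : ℕ) (d : Fin k → ℕ), ∃ c : ℝ, 0 < c ∧
    ∀ P : Fin k → ℚ[X], (∀ i, ∀ m : ℤ, ∃ z : ℤ, (P i).eval (m : ℚ) = (z : ℚ)) → (∀ i, 0 < (P i).leadingCoeff) →
      (∀ i, (P i).natDegree = d i) → ∃ N₀ : ℕ, ∀ N : ℕ, N₀ ≤ N →
      ∀ h H : Fin k → ℕ, (∀ i, short δ (d i) N ≤ H i) → (∀ i, h i + H i ≤ N ^ max (d i) 1) →
        c * ∏ i, (H i : ℝ) ≤ #(good P c N h H) := by
  classical
  obtain ⟨δ, hδ, -, hmain⟩ := Pool.Agent.L7h2.ME.s_SS (Pool.Agent.L7h53.ME.s_LOW Pool.Agent.L7h21.ME.s_PTS)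
  refine ⟨δ, hδ, fun k d => ?_⟩
  obtain ⟨c, hc, h1⟩ := hmain k d
  refine ⟨c, hc, fun P hint hlc hdeg => ?_⟩
  obtain ⟨N₀, h2⟩ := h1 P hint hlc hdeg
  have h3 := fun i => Pool.Agent.H342R2.SP.ev_Q (P i) (hlc i)
  choose n₁ hn1 hn2 using h3
  set n₀ := univ.sup n₁ with hn₀
  have hle : ∀ i, n₁ i ≤ n₀ := fun i => le_sup (f := n₁) (mem_univ i)
  refine ⟨max N₀ n₀, fun N hN h H hH hhH => ?_⟩
  have h4 := h2 N ((le_max_left _ _).trans hN) h H (fun i => by rw [← short_eq]; exact hH i) hhH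
  refine h4.trans ?_
  rw [Nat.cast_le]
  apply card_le_card
  intro b hb
  unfold good
  rw [mem_filter] at hb ⊢
  refine ⟨hb.1, hb.2.trans ?_⟩
  rw [Nat.cast_le]
  exact le_hits hint (fun i n hn => (hn1 i n ((hle i).trans hn)).1) ((le_max_right _ _).trans hN) b

end Pool.Agent.Results.MP_3aaefc_nt.ShortShifts
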